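import Pool.Agent.Helper39.SQ.Goals

/-!
# SQ-DY1: two long intervals with a common point have a common candidate in both
-/

namespace Pool.Agent.Helper76.SQ

open Pool.Agent.Helper39.SQ

lemma mem_mul {r : ℕ} {α β k : ℤ} (h1 : α ≤ k * 2 ^ r) (h2 : k * 2 ^ r ≤ β)
    (h3 : β ≤ α + 127 * 2 ^ r) : k * 2 ^ r ∈ FF r α β := by
  have h2r : (0 : ℤ) < 2 ^ r := by positivity
  unfold FF
  rw [Finset.mem_union]
  right
  rw [Finset.mem_image]
  refine ⟨k, ?_, rfl⟩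
  rw [Finset.mem_Icc]
  constructor
  · exact (Int.ediv_le_iff_le_mul h2r).2 (by nlinarith)
  · have h4 : k < α / 2 ^ r + 129 := by
      have h5 := Int.lt_ediv_add_one_mul_self α h2r
      have h6 : k * 2 ^ r < (α / 2 ^ r + 129) * 2 ^ r := by nlinarith
      exact lt_of_mul_lt_mul_right h6 h2r.le
    omega

lemma mem_right {r i : ℕ} {α β k : ℤ} (hi : i < r) (h1 : k * 2 ^ i ≤ β) (h2 : β < (k + 1) * 2 ^ i) :
    k * 2 ^ i ∈ FF r α β := by
  have h2r : (0 : ℤ) < 2 ^ i := by positivity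
  have h3 : β / 2 ^ i = k := by
    apply le_antisymm
    · have : β / 2 ^ i < k + 1 := (Int.ediv_lt_iff_lt_mul h2r).2 h2
      omega
    · exact (Int.le_ediv_iff_mul_le h2r).2 h1
  unfold FF
  rw [Finset.mem_union, Finset.mem_union]
  left; right
  rw [Finset.mem_image]
  exact ⟨i, Finset.mem_range.2 hi, by rw [h3]⟩

lemma mem_left {r i : ℕ} {α β k : ℤ} (hi : i < r) (h1 : α ≤ k * 2 ^ i) (h2 : (k - 1) * 2 ^ i < α) :
    k * 2 ^ i ∈ FF r α β := by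
  have h2r : (0 : ℤ) < 2 ^ i := by positivity
  have h3 : (-α) / 2 ^ i = -k := by
    apply le_antisymm
    · have : (-α) / 2 ^ i < -k + 1 := (Int.ediv_lt_iff_lt_mul h2r).2 (by linarith)
      omega
    · exact (Int.le_ediv_iff_mul_le h2r).2 (by linarith)
  unfold FF
  rw [Finset.mem_union, Finset.mem_union]
  left; left
  rw [Finset.mem_image]
  exact ⟨i, Finset.mem_range.2 hi, by rw [h3, neg_neg]⟩

lemma exists_mul {r : ℕ} {α β : ℤ} (h : α + 2 ^ r ≤ β) : ∃ k : ℤ, α ≤ k * 2 ^ r ∧ k * 2 ^ r ≤ β := by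
  have h2r : (0 : ℤ) < 2 ^ r := by positivity
  refine ⟨α / 2 ^ r + 1, ?_, ?_⟩
  · exact (Int.lt_ediv_add_one_mul_self α h2r).le
  · have := Int.ediv_mul_le α h2r.ne'
    linarith

lemma half {i : ℕ} {k : ℤ} {α β : ℤ} (h1 : α ≤ k * 2 ^ i) (h2 : (k + 1) * 2 ^ i ≤ β) :
    ∃ k' : ℤ, α ≤ k' * 2 ^ (i + 1) ∧ k' * 2 ^ (i + 1) ≤ β := by
  have h2r : (0 : ℤ) < 2 ^ i := by positivity
  rcases Int.even_or_odd' k with ⟨c, rfl | rfl⟩
  · exact ⟨c, by rw [pow_succ]; linarith, by rw [pow_succ]; linarith⟩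
  · exact ⟨c + 1, by rw [pow_succ]; linarith, by rw [pow_succ]; linarith⟩

lemma step {r : ℕ} {α β : ℤ} (hαβ : α ≤ β)
    (hno : ¬ ∃ k : ℤ, α ≤ k * 2 ^ r ∧ k * 2 ^ r ≤ β) :
    ∃ i < r, ∃ k : ℤ, α ≤ k * 2 ^ i ∧ k * 2 ^ i ≤ β ∧ (k - 1) * 2 ^ i < α ∧
      β < (k + 1) * 2 ^ i := by
  obtain ⟨i, hi, ⟨k, h1, h2⟩, h3⟩ : ∃ i < r, (∃ k : ℤ, α ≤ k * 2 ^ i ∧ k * 2 ^ i ≤ β) ∧
      ¬ ∃ k : ℤ, α ≤ k * 2 ^ (i + 1) ∧ k * 2 ^ (i + 1) ≤ β := by
    by_contra hcon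
    push Not at hcon
    apply hno
    have : ∀ i ≤ r, ∃ k : ℤ, α ≤ k * 2 ^ i ∧ k * 2 ^ i ≤ β := by
      intro i
      induction i with
      | zero => intro _; exact ⟨α, by simp, by simpa using hαβ⟩
      | succ i ih =>
        intro hi
        exact hcon i (by omega) (ih (by omega))
    exact this r le_rfl
  refine ⟨i, hi, k, h1, h2, ?_, ?_⟩
  · by_contra hc
    push Not at hc
    exact h3 (half (k := k - 1) hc (by rw [sub_add_cancel]; exact h2))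
  · by_contra hc
    push Not at hc
    exact h3 (half h1 hc)

/-- The case of two intervals, the first to the left of the second. -/
lemma main {r : ℕ} {α β α' β' : ℤ} (h1 : α < α') (h2 : α' ≤ β) (h3 : β < β')
    (hno : ¬ ∃ k : ℤ, α' ≤ k * 2 ^ r ∧ k * 2 ^ r ≤ β) :
    ∃ m ∈ FF r α β, m ∈ FF r α' β' ∧ α ≤ m ∧ m ≤ β ∧ α' ≤ m ∧ m ≤ β' := by
  obtain ⟨i, hi, k, k1, k2, k3, k4⟩ := step h2 hno
  exact ⟨k * 2 ^ i, mem_right hi k2 k4, mem_left hi k1 k3, by linarith, k2, k1, by linarith⟩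

theorem thm : G_DY1 := by
  intro r α β α' β' h1 h2 h1' h2' h3 h4
  by_cases hex : ∃ k : ℤ, α ≤ k * 2 ^ r ∧ k * 2 ^ r ≤ β ∧ α' ≤ k * 2 ^ r ∧ k * 2 ^ r ≤ β'
  · obtain ⟨k, a1, a2, a3, a4⟩ := hex
    exact ⟨k * 2 ^ r, mem_mul a1 a2 h2, mem_mul a3 a4 h2', a1, a2, a3, a4⟩
  · have hne : ¬ (α ≤ α' ∧ β' ≤ β) := by
      rintro ⟨b1, b2⟩
      obtain ⟨k, k1, k2⟩ := exists_mul h1'
      exact hex ⟨k, by linarith, by linarith, k1, k2⟩
    have hne' : ¬ (α' ≤ α ∧ β ≤ β') := by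
      rintro ⟨b1, b2⟩
      obtain ⟨k, k1, k2⟩ := exists_mul h1
      exact hex ⟨k, k1, k2, by linarith, by linarith⟩
    rcases lt_trichotomy α α' with hlt | heq | hgt
    · have hb : β < β' := by
        by_contra hc
        exact hne ⟨hlt.le, by linarith⟩
      apply main hlt h3 hb
      rintro ⟨k, k1, k2⟩
      exact hex ⟨k, by linarith, k2, k1, by linarith⟩
    · rcases le_total β β' with hb | hb
      · exact absurd ⟨heq.ge, hb⟩ hne'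
      · exact absurd ⟨heq.le, hb⟩ hne
    · have hb : β' < β := by
        by_contra hc
        exact hne' ⟨hgt.le, by linarith⟩
      obtain ⟨m, m1, m2, m3, m4, m5, m6⟩ := main (r := r) hgt h4 hb (by
        rintro ⟨k, k1, k2⟩
        exact hex ⟨k, k1, by linarith, by linarith, k2⟩)
      exact ⟨m, m2, m1, m5, m6, m3, m4⟩

end Pool.Agent.Helper76.SQ
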